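import Pool.Agent.W662.CB.Stmts

set_option autoImplicit false

open MeasureTheory Filter Topology Complex
open scoped InnerProductSpace ENNReal

namespace Pool.Agent.W371.CB

open Pool.Agent.W662.CB

theorem av_mono {α : Type} [Fintype α] {f g : α → ℝ} (h : ∀ x, f x ≤ g x) : av f ≤ av g := by
  unfold av
  exact mul_le_mul_of_nonneg_left (Finset.sum_le_sum fun x _ => h x)
    (inv_nonneg.mpr (Nat.cast_nonneg _))

theorem av_add {α : Type} [Fintype α] (f g : α → ℝ) :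
    av (fun x => f x + g x) = av f + av g := by
  unfold av
  rw [Finset.sum_add_distrib, mul_add]

theorem av_mul {α : Type} [Fintype α] (c : ℝ) (f : α → ℝ) :
    av (fun x => c * f x) = c * av f := by
  unfold av
  rw [← Finset.mul_sum]
  ring

theorem av_const {α : Type} [Fintype α] [Nonempty α] (c : ℝ) : av (fun _ : α => c) = c := by
  unfold av
  have hcard : (Fintype.card α : ℝ) ≠ 0 := by
    exact_mod_cast Fintype.card_ne_zero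
  rw [Finset.sum_const, Finset.card_univ, nsmul_eq_mul, ← mul_assoc, inv_mul_cancel₀ hcard,
    one_mul]

theorem smul_mem_vn {H : Type} [NormedAddCommGroup H] [InnerProductSpace ℂ H] [CompleteSpace H]
    (N : VonNeumannAlgebra H) (c : ℂ) {x : H →L[ℂ] H} (hx : x ∈ N) : c • x ∈ N :=
  N.toStarSubalgebra.smul_mem hx c

theorem fold_mem {H : Type} [NormedAddCommGroup H] [InnerProductSpace ℂ H] [CompleteSpace H]
    (N : VonNeumannAlgebra H) (U : ℝ → H →L[ℂ] H)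
    (hinv : ∀ (t : ℝ) (x : H →L[ℂ] H), x ∈ N → sgm U t x ∈ N) (T : ℝ) (F : Finset ℤ) (K : ℕ)
    (C : ℤ → H →L[ℂ] H) (hC : ∀ m, C m ∈ N) (e : F → Fin 4) (k : F → Fin K) :
    fold U T F K C e k ∈ N := by
  unfold fold
  exact sum_mem fun m _ => smul_mem_vn N _ (hinv _ _ (hC m))

/-- the pointwise estimate -/
theorem point {H : Type} [NormedAddCommGroup H] [InnerProductSpace ℂ H] [CompleteSpace H]
    (M N : VonNeumannAlgebra H) (ξ : H) (U : ℝ → H →L[ℂ] H) (hS : Std M N ξ U)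
    (hA4 : S_A4) (hA5 : S_A5) (hA6 : S_A6)
    (L ε A : ℝ) (x : H →L[ℂ] H) (hx : x ∈ M) (hfix : ∀ t : ℝ, sgm U t x = x)
    (hL : 0 < L) (hA : 0 ≤ A)
    (hyp : ∀ a : H →L[ℂ] H, a ∈ N → ‖a‖ ≤ L →
      ‖(a * x - x * a) ξ‖ ^ 2 ≤ ε + A * commNorm M ξ a ^ 2)
    (a : H →L[ℂ] H) (ha : a ∈ N) :
    ‖(a * x - x * a) ξ‖ ^ 2 ≤ 2 * ε + (16 * A) * commNorm M ξ a ^ 2 +
      (4 * A) * commNorm M ξ (star a) ^ 2 +
      (2 * ‖x‖ ^ 2 / L ^ 2) * ‖(star a * a) ξ‖ ^ 2 := by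
  obtain ⟨a', ha'N, ha'L, ha'c, ha'v⟩ := hA6 H M N ξ hS.unit hS.le a L ha hL
  obtain ⟨hc0, _, _, _⟩ := hA5 H M ξ hS.unit
  have h1 := hyp a' ha'N ha'L
  have hca := hc0 a
  have hcs := hc0 (star a)
  have hca' := hc0 a'
  -- commutator norm
  have h2 : commNorm M ξ a' ^ 2 ≤ 8 * commNorm M ξ a ^ 2 + 2 * commNorm M ξ (star a) ^ 2 := by
    have h3 : commNorm M ξ a' ^ 2 ≤ (2 * commNorm M ξ a + commNorm M ξ (star a)) ^ 2 :=
      pow_le_pow_left₀ hca' ha'c 2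
    nlinarith [sq_nonneg (2 * commNorm M ξ a - commNorm M ξ (star a))]
  -- second part
  have hd : a - a' ∈ M := sub_mem (hS.le a ha) (hS.le a' ha'N)
  have h4 : ‖(a - a') (x ξ)‖ ≤ ‖x‖ * ‖(a - a') ξ‖ := hA4 H M ξ U hS.modular x hx hfix _ hd
  have h5 : ‖x ((a - a') ξ)‖ ≤ ‖x‖ * ‖(a - a') ξ‖ := x.le_opNorm _
  have h6 : ‖(a - a') ξ‖ ≤ ‖(star a * a) ξ‖ / (2 * L) := ha'v ξ
  set D : ℝ := ‖(star a * a) ξ‖ with hDdef
  have hD : 0 ≤ D := norm_nonneg _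
  have hxn : 0 ≤ ‖x‖ := norm_nonneg _
  set v : H := (a' * x - x * a') ξ with hv
  set w : H := (a - a') (x ξ) - x ((a - a') ξ) with hw
  have hw1 : ‖w‖ ≤ ‖x‖ * D / L := by
    calc ‖w‖ ≤ ‖(a - a') (x ξ)‖ + ‖x ((a - a') ξ)‖ := norm_sub_le _ _
      _ ≤ ‖x‖ * ‖(a - a') ξ‖ + ‖x‖ * ‖(a - a') ξ‖ := add_le_add h4 h5
      _ = 2 * ‖x‖ * ‖(a - a') ξ‖ := by ring
      _ ≤ 2 * ‖x‖ * (D / (2 * L)) := by
          apply mul_le_mul_of_nonneg_left h6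
          positivity
      _ = ‖x‖ * D / L := by
          field_simp
  have hw2 : ‖w‖ ^ 2 ≤ ‖x‖ ^ 2 / L ^ 2 * D ^ 2 := by
    calc ‖w‖ ^ 2 ≤ (‖x‖ * D / L) ^ 2 := pow_le_pow_left₀ (norm_nonneg _) hw1 2
      _ = ‖x‖ ^ 2 / L ^ 2 * D ^ 2 := by ring
  have hsum : (a * x - x * a) ξ = v + w := by
    rw [hv, hw]
    simp only [ContinuousLinearMap.sub_apply, ContinuousLinearMap.mul_apply, map_sub]
    abel
  have hn : ‖(a * x - x * a) ξ‖ ^ 2 ≤ 2 * ‖v‖ ^ 2 + 2 * ‖w‖ ^ 2 := by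
    rw [hsum]
    have h7 : ‖v + w‖ ^ 2 ≤ (‖v‖ + ‖w‖) ^ 2 :=
      pow_le_pow_left₀ (norm_nonneg _) (norm_add_le _ _) 2
    nlinarith [sq_nonneg (‖v‖ - ‖w‖)]
  have h8 : A * commNorm M ξ a' ^ 2 ≤
      A * (8 * commNorm M ξ a ^ 2 + 2 * commNorm M ξ (star a) ^ 2) :=
    mul_le_mul_of_nonneg_left h2 hA
  have h9 : 2 * ‖w‖ ^ 2 ≤ (2 * ‖x‖ ^ 2 / L ^ 2) * D ^ 2 := by
    calc 2 * ‖w‖ ^ 2 ≤ 2 * (‖x‖ ^ 2 / L ^ 2 * D ^ 2) := by linarith
      _ = (2 * ‖x‖ ^ 2 / L ^ 2) * D ^ 2 := by ring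
  linarith

theorem c7 (h4 : S_C4) (h5 : S_C5) (h6 : S_C6) (hA4 : S_A4) (hA5 : S_A5) (hA6 : S_A6) :
    S_C7 := by
  intro H _ _ _ M N ξ U hS T L ε A η x hx hfix hL hε hA hyp F C C1 C2 hCN hF1 hF2 hk1 hk2 hη1 hη2
  obtain ⟨K, hK, hav⟩ := h4 H M ξ U hS.modular hS.unit T F C hF1 hF2
  obtain ⟨hc1, hc2⟩ := h5 H M ξ U hS.modular hS.unit T F C C1 C2 K η hK hk1 hk2 hη1 hη2
  have hc6 := h6 H M ξ U hS.modular T F C K x hK hfix
  haveI : Nonempty (F → Fin K) := ⟨fun _ => ⟨0, hK⟩⟩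
  rw [← hc6]
  have hpt : ∀ (k : F → Fin K) (e : F → Fin 4),
      ‖(fold U T F K C e k * x - x * fold U T F K C e k) ξ‖ ^ 2 ≤
      2 * ε + (16 * A) * commNorm M ξ (fold U T F K C e k) ^ 2 +
        (4 * A) * commNorm M ξ (star (fold U T F K C e k)) ^ 2 +
        (2 * ‖x‖ ^ 2 / L ^ 2) * ‖(star (fold U T F K C e k) * fold U T F K C e k) ξ‖ ^ 2 :=
    fun k e => point M N ξ U hS hA4 hA5 hA6 L ε A x hx hfix hL hA hyp _
      (fold_mem N U hS.inv T F K C hCN e k)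
  refine (av_mono fun k => av_mono fun e => hpt k e).trans ?_
  have hlin : av (fun k : F → Fin K => av (fun e : F → Fin 4 =>
      2 * ε + (16 * A) * commNorm M ξ (fold U T F K C e k) ^ 2 +
        (4 * A) * commNorm M ξ (star (fold U T F K C e k)) ^ 2 +
        (2 * ‖x‖ ^ 2 / L ^ 2) *
          ‖(star (fold U T F K C e k) * fold U T F K C e k) ξ‖ ^ 2)) =
      2 * ε + (16 * A) * av (fun k : F → Fin K => av (fun e : F → Fin 4 =>
        commNorm M ξ (fold U T F K C e k) ^ 2)) +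
      (4 * A) * av (fun k : F → Fin K => av (fun e : F → Fin 4 =>
        commNorm M ξ (star (fold U T F K C e k)) ^ 2)) +
      (2 * ‖x‖ ^ 2 / L ^ 2) * av (fun k : F → Fin K => av (fun e : F → Fin 4 =>
        ‖(star (fold U T F K C e k) * fold U T F K C e k) ξ‖ ^ 2)) := by
    simp only [av_add, av_mul, av_const]
  rw [hlin]
  have e1 := mul_le_mul_of_nonneg_left hc1 (show 0 ≤ 16 * A by linarith)
  have e2 := mul_le_mul_of_nonneg_left hc2 (show 0 ≤ 4 * A by linarith)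
  have e3 := mul_le_mul_of_nonneg_left hav (show 0 ≤ 2 * ‖x‖ ^ 2 / L ^ 2 by positivity)
  have e4 : (2 * ‖x‖ ^ 2 / L ^ 2) * 4 = 8 * ‖x‖ ^ 2 / L ^ 2 := by ring
  linarith

end Pool.Agent.W371.CB
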